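import Pool.Agent.Work.MP_73831e_pr.F.P.Gad

/-!
MODULE P/WtG (S).  Comparison of the weights of `E` and `E ∪ gadN c`.

Put `e = |E|`, `s = gs J l = |gadN c|` (`gad_card`, `gad_disj`), `N = NN n ≤ n ^ 2`.  Then
`wt E = e! (N - e - 1)!`, `wt (E ∪ gadN c) = (e + s)! (N - e - s - 1)!`,
`(N - e - 1)! ≤ N ^ s (N - e - s - 1)!`, `(e + s)! ≥ e! (e + 1) ^ s` (`Nat.factorial_mul_pow_le_factorial`),
so `(e + 1)^s wt E ≤ N ^ s wt (E ∪ gadN c)`; multiply `n ^ s ≤ K ^ s (e + 1) ^ s` with `wt E` and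
cancel `n ^ s` (`n > 0`; for `n = 0` everything is trivial as `NN 0 = 0` contradicts `hN`).
-/

open Finset
open scoped Classical Nat

namespace Pool.Agent.Work.MP_73831e_pr.F

private theorem fact_up (N m s : ℕ) (h : m + s ≤ N) : (m + s)! ≤ N ^ s * m ! := by
  induction s with
  | zero => simp
  | succ s ih =>
    have h1 := ih (by omega)
    rw [← Nat.add_assoc, Nat.factorial_succ]
    calc (m + s + 1) * (m + s)! ≤ N * (N ^ s * m !) := Nat.mul_le_mul (by omega) h1
      _ = N ^ (s + 1) * m ! := by ring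

theorem wt_gadN {J : Type} [Fintype J] {l n K : ℕ} {E : Finset (Pr n)} {c : Cg J l n}
    (hc : Gd (gr E) c) (hE : n ≤ K * (E.card + 1)) (hN : E.card + gs J l + 1 ≤ NN n) :
    wt E ≤ (K * n) ^ gs J l * wt (E ∪ gadN c) := by
  set s : ℕ := gs J l with hs
  have hcard : (E ∪ gadN c).card = E.card + s := by
    rw [card_union_of_disjoint (gad_disj hc), gad_card hc]
  set e : ℕ := E.card with he
  have h2 := two_NN n
  have hn : 0 < n := by
    rcases Nat.eq_zero_or_pos n with h0 | h0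
    · subst h0
      simp at h2
      omega
    · exact h0
  have hNn : NN n ≤ n * n := by
    have h3 : n * (n - 1) ≤ n * n := Nat.mul_le_mul_left n (Nat.sub_le n 1)
    omega
  have hw1 : wt E = e ! * (NN n - e - 1)! := rfl
  have hw2 : wt (E ∪ gadN c) = (e + s)! * (NN n - (e + s) - 1)! := by
    unfold wt
    rw [hcard]
    rfl
  have h3 : (NN n - e - 1)! ≤ NN n ^ s * (NN n - (e + s) - 1)! := by
    have h4 := fact_up (NN n) (NN n - (e + s) - 1) s (by omega)
    have h5 : NN n - (e + s) - 1 + s = NN n - e - 1 := by omega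
    rwa [h5] at h4
  have h4 : e ! * (e + 1) ^ s ≤ (e + s)! := Nat.factorial_mul_pow_le_factorial
  have h5 : (e + 1) ^ s * wt E ≤ NN n ^ s * wt (E ∪ gadN c) := by
    rw [hw1, hw2]
    calc (e + 1) ^ s * (e ! * (NN n - e - 1)!) = (e ! * (e + 1) ^ s) * (NN n - e - 1)! := by ring
      _ ≤ (e + s)! * (NN n ^ s * (NN n - (e + s) - 1)!) := Nat.mul_le_mul h4 h3
      _ = _ := by ring
  have h6 : n ^ s ≤ K ^ s * (e + 1) ^ s := by
    rw [← mul_pow]
    exact Nat.pow_le_pow_left hE s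
  have h7 : n ^ s * wt E ≤ n ^ s * ((K * n) ^ s * wt (E ∪ gadN c)) := by
    calc n ^ s * wt E ≤ K ^ s * (e + 1) ^ s * wt E := Nat.mul_le_mul_right _ h6
      _ = K ^ s * ((e + 1) ^ s * wt E) := by ring
      _ ≤ K ^ s * (NN n ^ s * wt (E ∪ gadN c)) := Nat.mul_le_mul_left _ h5
      _ ≤ K ^ s * ((n * n) ^ s * wt (E ∪ gadN c)) :=
        Nat.mul_le_mul_left _ (Nat.mul_le_mul_right _ (Nat.pow_le_pow_left hNn s))
      _ = n ^ s * ((K * n) ^ s * wt (E ∪ gadN c)) := by
        rw [mul_pow, mul_pow]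
        ring
  exact Nat.le_of_mul_le_mul_left h7 (pow_pos hn s)

end Pool.Agent.Work.MP_73831e_pr.F
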