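import Pool.Agent.Work.MP_73831e_pr.F.P.Exch
import Pool.Agent.Work.MP_73831e_pr.F.P.WtG

/-!
MODULE P/Core (M).  The planting inequality for a fixed `n`.

Let `A` be the set of the `ω` for which there is `t ≤ T` with `Fa`, `Kp`, `Ty'` at time `t`
(`Ty'` = the decreasing property `hT`).  Take the least `t₀` with `Kp (pre ω t₀)`.  `t₀ ≠ 0`: else
`Kp ∅`, `gr ∅` is alive, so `n ≤ K * 0` by `hK`, contradiction with `0 < n`.  Put
`E = pre ω (t₀ - 1)`, `x = ω (t₀ - 1)`.  Then `¬ Kp E`, `Kp (insert x E)`, and `Fa`, `Ty'` hold for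
`insert x E = pre ω t₀ ⊆ pre ω t` (decreasing), `E.card + 1 ≤ T`.  By `Wsum_eq` the number of such
`ω` is at most the sum of `wt E` over the pairs `(E, x)` with these properties.  For such a pair, by
`hkill` and `wt_gadN` (with `hK`: `n ≤ K (|E| + 1)`)
`n ^ s * wt E ≤ Γ ∑_{c ∈ Kil (insert x E)} wt E ≤ Γ (K n) ^ s ∑_c wt (E ∪ gadN c)`, `s = gs J l`;
cancel `n ^ s` and apply `exch`.
(`c` is good for `gr (insert x E)`, hence for `gr E`.)
-/

open Finset
open scoped Classical Nat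

namespace Pool.Agent.Work.MP_73831e_pr.F

private def Bp (J : Type) [Fintype J] (l : ℕ) {n : ℕ} (M T : ℕ) (Kp Td : Finset (Pr n) → Prop)
    (E : Finset (Pr n)) (x : Pr n) : Prop :=
  ¬ Kp E ∧ Kp (insert x E) ∧ Fa (l + 1) M (insert x E) ∧ Td (insert x E) ∧ E.card + 1 ≤ T

private theorem gd_anti' {J : Type} {l n : ℕ} {G H : SimpleGraph (Fin n)} (h : H ≤ G)
    {c : Cg J l n} (hc : Gd G c) : Gd H c :=
  ⟨fun j a => iso.anti h (hc.iso j a), hc.inj, hc.off, hc.ainj⟩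

private theorem pair_le {J : Type} [Fintype J] {l n M T K Γ : ℕ} (hn : 0 < n)
    {Kp Td : Finset (Pr n) → Prop}
    (hK : ∀ E, Kp E → Alive (l + 1 + 1) (gr E) → n ≤ K * E.card)
    (hkill : ∀ E, Kp E → Td E → KF J l Γ E) (hN : T + gs J l + 1 ≤ NN n)
    {E : Finset (Pr n)} {x : Pr n} (hB : Bp J l M T Kp Td E x) :
    wt E ≤ Γ * K ^ gs J l * ∑ c ∈ Kil J l (insert x E), wt (E ∪ gadN c) := by
  obtain ⟨-, h2, h3, h4, h5⟩ := hB
  have h6 : n ≤ K * (E.card + 1) :=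
    (hK _ h2 h3.1).trans (Nat.mul_le_mul_left _ (Finset.card_insert_le _ _))
  have h7 : n ^ gs J l ≤ Γ * (Kil J l (insert x E)).card := hkill _ h2 h4
  have h8 : ∀ c ∈ Kil J l (insert x E), wt E ≤ (K * n) ^ gs J l * wt (E ∪ gadN c) := by
    intro c hc
    unfold Kil at hc
    rw [mem_filter] at hc
    exact wt_gadN (gd_anti' (gr_mono (Finset.subset_insert _ _)) hc.2.1) h6 (by omega)
  have h9 : (Kil J l (insert x E)).card * wt E ≤
      (K * n) ^ gs J l * ∑ c ∈ Kil J l (insert x E), wt (E ∪ gadN c) := by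
    rw [Finset.mul_sum, ← smul_eq_mul, ← Finset.sum_const]
    exact Finset.sum_le_sum h8
  have h10 : n ^ gs J l * wt E ≤
      n ^ gs J l * (Γ * K ^ gs J l * ∑ c ∈ Kil J l (insert x E), wt (E ∪ gadN c)) := by
    calc n ^ gs J l * wt E ≤ Γ * (Kil J l (insert x E)).card * wt E := Nat.mul_le_mul_right _ h7
      _ = Γ * ((Kil J l (insert x E)).card * wt E) := by ring
      _ ≤ Γ * ((K * n) ^ gs J l * ∑ c ∈ Kil J l (insert x E), wt (E ∪ gadN c)) :=
          Nat.mul_le_mul_left _ h9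
      _ = _ := by rw [mul_pow]; ring
  exact Nat.le_of_mul_le_mul_left h10 (pow_pos hn _)

private theorem ord_le {J : Type} [Fintype J] {l n M T K : ℕ} (hn : 0 < n)
    {Kp Td : Finset (Pr n) → Prop}
    (hTd : ∀ E F, E ⊆ F → Td F → Td E)
    (hK : ∀ E, Kp E → Alive (l + 1 + 1) (gr E) → n ≤ K * E.card)
    (hN : T + gs J l + 1 ≤ NN n) :
    Nat.card {ω : Ordr (Pr n) // ∃ t ≤ T, Fa (l + 1) M (pre ω t) ∧ Kp (pre ω t) ∧ Td (pre ω t)} ≤
      Wsum (Bp J l M T Kp Td) := by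
  rw [Wsum_eq]
  have hex : ∀ ω : Ordr (Pr n), (∃ t ≤ T, Fa (l + 1) M (pre ω t) ∧ Kp (pre ω t) ∧
      Td (pre ω t)) → ∃ t : Fin (Fintype.card (Pr n)),
        Bp J l M T Kp Td (pre ω t) (ω t) := by
    rintro ω ⟨t, ht, h1, h2, h3⟩
    have hP : ∃ t, Kp (pre ω t) := ⟨t, h2⟩
    have hs : Kp (pre ω (Nat.find hP)) := Nat.find_spec hP
    have hle : Nat.find hP ≤ t := Nat.find_min' hP h2
    have hmin : ∀ m, m < Nat.find hP → ¬ Kp (pre ω m) := fun m hm => Nat.find_min hP hm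
    generalize Nat.find hP = u at hs hle hmin
    have hsub : pre ω u ⊆ pre ω t := pre_mono ω hle
    have hFa : Fa (l + 1) M (pre ω u) :=
      ⟨Alive.anti (gr_mono hsub) h1.1, fun h => h1.2 (Um.mono (gr_mono hsub) h)⟩
    have hTd' : Td (pre ω u) := hTd _ _ hsub h3
    rcases u with _ | u
    · exfalso
      have h := hK _ hs hFa.1
      rw [pre_zero, Finset.card_empty, Nat.mul_zero] at h
      omega
    · have hNN : NN n = Fintype.card (Pr n) := rfl
      have hu : u < Fintype.card (Pr n) := by omega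
      have hpre := pre_succ ω hu
      refine ⟨⟨u, hu⟩, hmin u (Nat.lt_succ_self u), ?_, ?_, ?_, ?_⟩
      · rw [← hpre]; exact hs
      · rw [← hpre]; exact hFa
      · rw [← hpre]; exact hTd'
      · have : (pre ω u).card = u := pre_card ω hu.le
        change (pre ω u).card + 1 ≤ T
        omega
  let F : {ω : Ordr (Pr n) // ∃ t ≤ T, Fa (l + 1) M (pre ω t) ∧ Kp (pre ω t) ∧ Td (pre ω t)} →
      {z : Ordr (Pr n) × Fin (Fintype.card (Pr n)) // Bp J l M T Kp Td (pre z.1 z.2) (z.1 z.2)} :=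
    fun ω => ⟨(ω.1, (hex ω.1 ω.2).choose), (hex ω.1 ω.2).choose_spec⟩
  refine Nat.card_le_card_of_injective F ?_
  intro ω ω' h
  have h1 : (F ω).1.1 = (F ω').1.1 := by rw [h]
  exact Subtype.ext h1

theorem plant_core {J : Type} [Fintype J] {l n M L T K Γ : ℕ} (hM : 3 * l + 4 ≤ M) (hn : 0 < n)
    {Kp Td : Finset (Pr n) → Prop} (hKp : ∀ E F, E ⊆ F → Kp E → Kp F)
    (hTd : ∀ E F, E ⊆ F → Td F → Td E) (htri : ∀ E, Td E → tri E ≤ L)
    (hK : ∀ E, Kp E → Alive (l + 1 + 1) (gr E) → n ≤ K * E.card)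
    (hkill : ∀ E, Kp E → Td E → KF J l Γ E) (hN : T + gs J l + 1 ≤ NN n) :
    Nat.card {ω : Ordr (Pr n) // ∃ t ≤ T, Fa (l + 1) M (pre ω t) ∧ Kp (pre ω t) ∧ Td (pre ω t)} ≤
      Γ * K ^ gs J l * DD J l L * Nat.card {ω : Ordr (Pr n) // Suc (l + 1) M ω} := by
  refine (ord_le (J := J) hn hTd hK hN).trans ?_
  have h1 : Wsum (Bp J l M T Kp Td) ≤ Γ * K ^ gs J l *
      ∑ E : Finset (Pr n), ∑ x ∈ univ.filter (fun x => x ∉ E ∧ ¬ Kp E ∧ Kp (insert x E) ∧
        ¬ Um (l + 1 + 1) M (gr (insert x E)) ∧ tri (insert x E) ≤ L),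
      ∑ c ∈ Kil J l (insert x E), wt (E ∪ gadN c) := by
    have hW : Wsum (Bp J l M T Kp Td) = ∑ E : Finset (Pr n),
        ∑ _x ∈ univ.filter (fun x => x ∉ E ∧ Bp J l M T Kp Td E x), wt E := by
      unfold Wsum
      refine Finset.sum_congr rfl fun E _ => ?_
      congr!
    rw [hW, Finset.mul_sum]
    refine Finset.sum_le_sum fun E _ => ?_
    rw [Finset.mul_sum]
    refine le_trans (Finset.sum_le_sum (g := fun x => Γ * K ^ gs J l *
      ∑ c ∈ Kil J l (insert x E), wt (E ∪ gadN c)) fun x hx => ?_) ?_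
    · rw [mem_filter] at hx
      exact pair_le hn hK hkill hN hx.2.2
    · refine Finset.sum_le_sum_of_subset ?_
      intro x hx
      rw [mem_filter] at hx ⊢
      obtain ⟨-, h1, h2, h3, h4, h5, -⟩ := hx
      exact ⟨mem_univ _, h1, h2, h3, h4.2, htri _ h5⟩
  refine h1.trans ?_
  rw [mul_assoc (Γ * K ^ gs J l)]
  exact Nat.mul_le_mul_left _ (exch hM hKp)

end Pool.Agent.Work.MP_73831e_pr.F
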