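import Pool.Agent.Work.MP_73831e_pr.F.Defs

/-!
MODULE P/Gad (M).  Elementary facts on the gadget edges `gadN c` of a good configuration.

* `gad_disj`: an element of `gadN c` contains a new vertex `(c j a).1`, which is isolated in `gr E`.
* `gad_sdiff`: immediate from `gad_disj`.
* `gad_nb`: the neighbours of the new vertex `(c j a).1` in `gr (E ∪ gadN c)` are exactly the two
  other triangle vertices `(c j b).1`, `b ≠ a`, and its `l` attachments (use `Gd.iso`, `Gd.inj`,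
  `Gd.off`: an edge of the gadget containing `(c j a).1` is `s((c j a).1, (c j b).1)`, or
  `s((c j a).1, (c j a).2 i)`, since attachments are never new vertices).  The union is disjoint.
* `gad_dg`: `2 + l`, by `gad_nb` (`Gd.inj`, `Gd.ainj`).
* `gad_card`: count the pairs: the triangle edges `(j, a)` with `a : Fin 3` (edge opposite to `a`)
  and the attachment edges `(j, a, i)`: an explicit injection from
  `(J × Fin 3) ⊕ (J × Fin 3 × Fin l)` onto `gadN c` (for the triangle edges use `a ↦ {a, a+1}`);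
  `3 |J| + 3 |J| l = 3 |J| (l + 1)`.
* `gad_new`: an edge of `gr (E ∪ gadN c)` which is not in `gr E` has an end which is a new vertex.
-/

open Finset
open scoped Classical Nat

namespace Pool.Agent.Work.MP_73831e_pr.F

variable {J : Type} [Fintype J] {l n : ℕ} {E : Finset (Pr n)} {c : Cg J l n}

private theorem mem_gadN {e : Pr n} : e ∈ gadN c ↔ (∃ j a b, e.1 = s((c j a).1, (c j b).1)) ∨
    ∃ j a i, e.1 = s((c j a).1, (c j a).2 i) := by
  simp only [gadN, mem_filter, mem_univ, true_and]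

private theorem nodiag {e : Pr n} {u v : Fin n} (h : e.1 = s(u, v)) : u ≠ v := by
  intro huv
  apply e.2
  rw [h, huv]
  exact Sym2.mk_isDiag_iff.mpr rfl

theorem gad_disj (hc : Gd (gr E) c) : Disjoint E (gadN c) := by
  rw [disjoint_left]
  intro e he hg
  rcases mem_gadN.1 hg with ⟨j, a, b, h⟩ | ⟨j, a, i, h⟩
  · exact hc.iso j a _ ((mem_iff_adj h).1 he)
  · exact hc.iso j a _ ((mem_iff_adj h).1 he)

theorem gad_sdiff (hc : Gd (gr E) c) : (E ∪ gadN c) \ gadN c = E := by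
  exact union_sdiff_cancel_right (gad_disj hc)

theorem gad_nb (hc : Gd (gr E) c) (j : J) (a : Fin 3) :
    nb (E ∪ gadN c) (c j a).1 =
      (univ.filter (fun b : Fin 3 => b ≠ a)).image (fun b => (c j b).1) ∪
        univ.image (fun i : Fin l => (c j a).2 i) := by
  ext y
  unfold nb
  rw [mem_filter, mem_union, mem_image, mem_image, gr_adj']
  constructor
  · rintro ⟨-, e, he, h⟩
    rcases mem_union.1 he with he | he
    · exact absurd ((mem_iff_adj h).1 he) (hc.iso j a _)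
    · rcases mem_gadN.1 he with ⟨j', a', b', h'⟩ | ⟨j', a', i, h'⟩
      · left
        have hne : (c j' a').1 ≠ (c j' b').1 := nodiag h'
        rw [h] at h'
        rcases Sym2.eq_iff.1 h' with ⟨h1, h2⟩ | ⟨h1, h2⟩
        · obtain ⟨rfl, rfl⟩ := hc.inj _ _ _ _ h1
          refine ⟨b', ?_, h2.symm⟩
          rw [mem_filter]
          exact ⟨mem_univ _, fun hb => hne (by rw [hb])⟩
        · obtain ⟨rfl, rfl⟩ := hc.inj _ _ _ _ h1
          refine ⟨a', ?_, h2.symm⟩
          rw [mem_filter]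
          exact ⟨mem_univ _, fun hb => hne (by rw [hb])⟩
      · rw [h] at h'
        rcases Sym2.eq_iff.1 h' with ⟨h1, h2⟩ | ⟨h1, h2⟩
        · obtain ⟨rfl, rfl⟩ := hc.inj _ _ _ _ h1
          right
          exact ⟨i, mem_univ _, h2.symm⟩
        · exact absurd h1.symm (hc.off _ _ _ _ _)
  · rintro (⟨b, hb, rfl⟩ | ⟨i, -, rfl⟩)
    · rw [mem_filter] at hb
      have hne : (c j a).1 ≠ (c j b).1 := fun h => hb.2 (hc.inj _ _ _ _ h).2.symm
      refine ⟨mem_univ _, ⟨s((c j a).1, (c j b).1), fun h => hne (Sym2.mk_isDiag_iff.1 h)⟩, ?_, rfl⟩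
      exact mem_union_right _ (mem_gadN.2 (Or.inl ⟨j, a, b, rfl⟩))
    · have hne : (c j a).1 ≠ (c j a).2 i := fun h => hc.off _ _ _ _ _ h.symm
      refine ⟨mem_univ _, ⟨s((c j a).1, (c j a).2 i), fun h => hne (Sym2.mk_isDiag_iff.1 h)⟩, ?_, rfl⟩
      exact mem_union_right _ (mem_gadN.2 (Or.inr ⟨j, a, i, rfl⟩))

theorem gad_nb_disj (hc : Gd (gr E) c) (j : J) (a : Fin 3) :
    Disjoint ((univ.filter (fun b : Fin 3 => b ≠ a)).image (fun b => (c j b).1))
        (univ.image (fun i : Fin l => (c j a).2 i)) := by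
  rw [disjoint_left]
  intro y hy hy'
  obtain ⟨b, -, rfl⟩ := mem_image.1 hy
  obtain ⟨i, -, hi⟩ := mem_image.1 hy'
  exact hc.off _ _ _ _ _ hi

theorem gad_dg (hc : Gd (gr E) c) (j : J) (a : Fin 3) : dg (E ∪ gadN c) (c j a).1 = l + 2 := by
  unfold dg
  rw [gad_nb hc, card_union_of_disjoint (gad_nb_disj hc j a),
    card_image_of_injective _ (fun b b' h => (hc.inj _ _ _ _ h).2),
    card_image_of_injective _ (hc.ainj j a), card_univ, Fintype.card_fin, filter_ne',
    card_erase_of_mem (mem_univ _), card_univ, Fintype.card_fin]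
  omega

private theorem fin3 : ∀ a b : Fin 3, a ≠ b → b = a + 1 ∨ a = b + 1 := by decide

private theorem fin3' : ∀ a b : Fin 3, a = b + 1 → a + 1 = b → False := by decide

private theorem fin3'' : ∀ a : Fin 3, a ≠ a + 1 := by decide

theorem gad_card (hc : Gd (gr E) c) : (gadN c).card = gs J l := by
  have hn1 : ∀ (j : J) (a : Fin 3), (c j a).1 ≠ (c j (a + 1)).1 := fun j a h =>
    fin3'' a (hc.inj _ _ _ _ h).2
  have hn2 : ∀ (j : J) (a : Fin 3) (i : Fin l), (c j a).1 ≠ (c j a).2 i := fun j a i h =>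
    hc.off _ _ _ _ _ h.symm
  let F : (J × Fin 3) ⊕ (J × Fin 3 × Fin l) → Pr n := Sum.elim
    (fun x => ⟨s((c x.1 x.2).1, (c x.1 (x.2 + 1)).1), fun h => hn1 _ _ (Sym2.mk_isDiag_iff.1 h)⟩)
    (fun x => ⟨s((c x.1 x.2.1).1, (c x.1 x.2.1).2 x.2.2),
      fun h => hn2 _ _ _ (Sym2.mk_isDiag_iff.1 h)⟩)
  have hF1 : ∀ x, (F (Sum.inl x)).1 = s((c x.1 x.2).1, (c x.1 (x.2 + 1)).1) := fun x => rfl
  have hF2 : ∀ x, (F (Sum.inr x)).1 = s((c x.1 x.2.1).1, (c x.1 x.2.1).2 x.2.2) := fun x => rfl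
  have hinj : Function.Injective F := by
    rintro (⟨j, a⟩ | ⟨j, a, i⟩) (⟨j', a'⟩ | ⟨j', a', i'⟩) h
    · have h1 := congrArg Subtype.val h
      rw [hF1, hF1] at h1
      rcases Sym2.eq_iff.1 h1 with ⟨h2, h3⟩ | ⟨h2, h3⟩
      · obtain ⟨rfl, rfl⟩ := hc.inj _ _ _ _ h2
        rfl
      · exact (fin3' _ _ (hc.inj _ _ _ _ h2).2 (hc.inj _ _ _ _ h3).2).elim
    · have h1 := congrArg Subtype.val h
      rw [hF1, hF2] at h1
      rcases Sym2.eq_iff.1 h1 with ⟨h2, h3⟩ | ⟨h2, h3⟩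
      · exact absurd h3.symm (hc.off _ _ _ _ _)
      · exact absurd h2.symm (hc.off _ _ _ _ _)
    · have h1 := congrArg Subtype.val h
      rw [hF1, hF2] at h1
      rcases Sym2.eq_iff.1 h1 with ⟨h2, h3⟩ | ⟨h2, h3⟩
      · exact absurd h3 (hc.off _ _ _ _ _)
      · exact absurd h3 (hc.off _ _ _ _ _)
    · have h1 := congrArg Subtype.val h
      rw [hF2, hF2] at h1
      rcases Sym2.eq_iff.1 h1 with ⟨h2, h3⟩ | ⟨h2, h3⟩
      · obtain ⟨rfl, rfl⟩ := hc.inj _ _ _ _ h2
        obtain rfl := hc.ainj _ _ h3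
        rfl
      · exact absurd h2.symm (hc.off _ _ _ _ _)
  have himg : univ.image F = gadN c := by
    ext e
    rw [mem_image, mem_gadN]
    constructor
    · rintro ⟨⟨j, a⟩ | ⟨j, a, i⟩, -, rfl⟩
      · exact Or.inl ⟨j, a, a + 1, rfl⟩
      · exact Or.inr ⟨j, a, i, rfl⟩
    · rintro (⟨j, a, b, h⟩ | ⟨j, a, i, h⟩)
      · have hab : a ≠ b := fun hab => nodiag h (by rw [hab])
        rcases fin3 a b hab with rfl | rfl
        · exact ⟨Sum.inl (j, a), mem_univ _, Subtype.ext h.symm⟩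
        · exact ⟨Sum.inl (j, b), mem_univ _, Subtype.ext ((hF1 _).trans (Sym2.eq_swap.trans h.symm))⟩
      · exact ⟨Sum.inr (j, a, i), mem_univ _, Subtype.ext h.symm⟩
  rw [← himg, card_image_of_injective _ hinj, card_univ, Fintype.card_sum, Fintype.card_prod,
    Fintype.card_prod, Fintype.card_prod, Fintype.card_fin, Fintype.card_fin]
  unfold gs
  ring

theorem gad_new {u v : Fin n} (h : (gr (E ∪ gadN c)).Adj u v) (h' : ¬ (gr E).Adj u v) :
    ∃ j a, u = (c j a).1 ∨ v = (c j a).1 := by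
  rw [gr_adj'] at h
  obtain ⟨e, he, hh⟩ := h
  rcases mem_union.1 he with he | he
  · exact absurd ((mem_iff_adj hh).1 he) h'
  · rcases mem_gadN.1 he with ⟨j, a, b, h1⟩ | ⟨j, a, i, h1⟩
    · rw [hh] at h1
      rcases Sym2.eq_iff.1 h1 with ⟨h2, h3⟩ | ⟨h2, h3⟩
      · exact ⟨j, a, Or.inl h2⟩
      · exact ⟨j, a, Or.inr h3⟩
    · rw [hh] at h1
      rcases Sym2.eq_iff.1 h1 with ⟨h2, h3⟩ | ⟨h2, h3⟩
      · exact ⟨j, a, Or.inl h2⟩
      · exact ⟨j, a, Or.inr h3⟩

end Pool.Agent.Work.MP_73831e_pr.F
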