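import Pool.Agent.Work.MP_73831e_pr.F.P.List3
import Pool.Agent.Work.MP_73831e_pr.F.P.Gad
import Pool.Agent.Work.MP_73831e_pr.Nbr

/-!
MODULE P/Neutral (M).  Neutral gadgets never create a uniquely colourable subgraph with at least
`M ≥ 3 l + 4` vertices (`k = l + 2`).

Let `H ≤ gr (E ∪ gadN c)`, `UQ k H W`, `|W| ≥ M`.  Claim: `W` contains no new vertex.  Then every
edge of `H` lies inside `W`, so it has no new vertex as an end, so it is an edge of `gr E`
(`gad_new`), i.e. `H ≤ gr E` and `Um k M (gr E)`.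

Proof of the claim: suppose `(c j a₀).1 ∈ W`.  Let `T = W ∩ {(c j a).1 | a : Fin 3}`, `1 ≤ |T| ≤ 3`.
Let `f` be a proper colouring of `H`.  Every `s = (c j a).1 ∈ T` has at most `l` `H`-neighbours
outside `T` (`H`-neighbours lie in `W`; those outside `T` are attachments of `s`, by `gad_nb`).  By
`list3` there is a proper colouring `g` of `H` which agrees with `f` outside `T` and differs from
`f` at some `s ∈ T ⊆ W`.  By `UQ` there is `π` with `g w = π (f w)` for `w ∈ W`.  If every colour
occurs in `f (W \ T)` then `π = id` and `g s = f s`, contradiction.  So some colour `j₀` does not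
occur on `W \ T`.  By `uq_nbr` (note `k ≤ |W|`) every `w ∈ W \ T` has an `H`-neighbour of colour
`j₀`, which must be in `T`.  So `W \ T` is contained in the set of the attachments of the (at most
3) vertices of `T` (again `gad_nb`), hence `|W \ T| ≤ 3 l`, `|W| ≤ 3 l + 3 < M`.  Contradiction.
-/

open Finset
open scoped Classical Nat

namespace Pool.Agent.Work.MP_73831e_pr.F

theorem neutral {J : Type} [Fintype J] {l n M : ℕ} {E : Finset (Pr n)} {c : Cg J l n}
    (hc : Gd (gr E) c) (hM : 3 * l + 4 ≤ M) (h : Um (l + 1 + 1) M (gr (E ∪ gadN c))) :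
    Um (l + 1 + 1) M (gr E) := by
  obtain ⟨H, hH, W, hW, hUQ⟩ := h
  have hadjN : ∀ (j : J) (a : Fin 3) (v : Fin n), H.Adj (c j a).1 v →
      (∃ b, v = (c j b).1) ∨ ∃ i, v = (c j a).2 i := by
    intro j a v hv
    have h1 : v ∈ nb (E ∪ gadN c) (c j a).1 := by
      unfold nb
      rw [mem_filter]
      exact ⟨mem_univ _, hH hv⟩
    rw [gad_nb hc, mem_union, mem_image, mem_image] at h1
    rcases h1 with ⟨b, -, hb⟩ | ⟨i, -, hi⟩
    · exact Or.inl ⟨b, hb.symm⟩
    · exact Or.inr ⟨i, hi.symm⟩
  have claim : ∀ (j : J) (a : Fin 3), (c j a).1 ∉ W := by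
    intro j a₀ hjW
    obtain ⟨f, hf⟩ := hUQ.2.1
    set N : Finset (Fin n) := univ.image (fun a : Fin 3 => (c j a).1) with hN
    set T : Finset (Fin n) := W ∩ N with hTdef
    have hNc : N.card ≤ 3 := by
      refine card_image_le.trans ?_
      rw [card_univ, Fintype.card_fin]
    have hT3 : T.card ≤ 3 := (card_le_card inter_subset_right).trans hNc
    have hmN : ∀ a : Fin 3, (c j a).1 ∈ N := fun a => mem_image_of_mem _ (mem_univ a)
    have hTne : T.Nonempty := ⟨(c j a₀).1, mem_inter.2 ⟨hjW, hmN a₀⟩⟩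
    have hTW : T ⊆ W := inter_subset_left
    have hout : ∀ a : Fin 3, ∀ v, H.Adj (c j a).1 v → v ∉ T → ∃ i, v = (c j a).2 i := by
      intro a v hv hvT
      rcases hadjN j a v hv with ⟨b, rfl⟩ | hi
      · exact absurd (mem_inter.2 ⟨(hUQ.1 _ _ hv).2, hmN b⟩) hvT
      · exact hi
    obtain ⟨g, hg, hgf, s, hs, hgs⟩ := list3 hf hT3 hTne (by
      intro s hs
      obtain ⟨a, -, rfl⟩ := mem_image.1 (mem_inter.1 hs).2
      have h1 : {v | H.Adj (c j a).1 v ∧ v ∉ T} ⊆
          ((univ.image (fun i : Fin l => (c j a).2 i) : Finset (Fin n)) : Set (Fin n)) := by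
        rintro v ⟨hv, hvT⟩
        obtain ⟨i, rfl⟩ := hout a v hv hvT
        rw [mem_coe]
        exact mem_image_of_mem _ (mem_univ i)
      refine (Set.ncard_le_ncard h1 (Finset.finite_toSet _)).trans ?_
      rw [Set.ncard_coe_finset]
      refine card_image_le.trans ?_
      rw [card_univ, Fintype.card_fin])
    obtain ⟨π, hπ⟩ := hUQ.2.2 f g hf hg
    by_cases hall : ∀ x : Fin (l + 1 + 1), ∃ w ∈ W, w ∉ T ∧ f w = x
    · have hid : ∀ x, π x = x := by
        intro x
        obtain ⟨w, hw, hwT, rfl⟩ := hall x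
        rw [← hπ w hw, hgf w hwT]
      apply hgs
      rw [hπ s (hTW hs), hid]
    · push Not at hall
      obtain ⟨x, hx⟩ := hall
      have hWsub : W ⊆ T ∪ univ.image (fun p : Fin 3 × Fin l => (c j p.1).2 p.2) := by
        intro w hw
        by_cases hwT : w ∈ T
        · exact mem_union_left _ hwT
        · obtain ⟨v, hv, hwv, hvx⟩ := uq_nbr hUQ (by omega) hf w hw x (fun h => hx w hw hwT h.symm)
          have hvT : v ∈ T := by
            by_contra hvT
            exact hx v hv hvT hvx
          obtain ⟨a, -, rfl⟩ := mem_image.1 (mem_inter.1 hvT).2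
          obtain ⟨i, rfl⟩ := hout a w hwv.symm hwT
          exact mem_union_right _ (mem_image.2 ⟨(a, i), mem_univ _, rfl⟩)
      have h1 := (card_le_card hWsub).trans (card_union_le _ _)
      have h2 : (univ.image (fun p : Fin 3 × Fin l => (c j p.1).2 p.2)).card ≤ 3 * l := by
        refine card_image_le.trans ?_
        rw [card_univ, Fintype.card_prod, Fintype.card_fin, Fintype.card_fin]
      omega
  refine ⟨H, ?_, W, hW, hUQ⟩
  intro u v huv
  by_contra hcon
  obtain ⟨j, a, rfl | rfl⟩ := gad_new (hH huv) hcon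
  · exact claim j a (hUQ.1 _ _ huv).1
  · exact claim j a (hUQ.1 _ _ huv).2

end Pool.Agent.Work.MP_73831e_pr.F
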