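import Pool.Agent.Work.MP_73831e_pr.F.P.Mult
import Pool.Agent.Work.MP_73831e_pr.F.P.Neutral
import Pool.Agent.Work.MP_73831e_pr.Count

/-!
MODULE P/Exch (M).  The exchange of sums in the planting argument.

Left side: triples `(E, x, c)` with `x ∉ E`, `¬ Kp E`, `Kp (insert x E)`, `¬ Um (gr (insert x E))`,
`tri (insert x E) ≤ L`, `c ∈ Kil J l (insert x E)`.  The map `(E, x, c) ↦ (E ∪ gadN c, x, c)` is
injective (`E = (E ∪ gadN c) \ gadN c` by `gad_sdiff`; `c` is good for `gr E ≤ gr (insert x E)` too),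
and `x ∉ E ∪ gadN c` (`gad_disj` for `insert x E`).  So the left side is at most
`∑ c, Wsum (B_c)` with
`B_c E' x := gadN c ⊆ E' ∧ ¬ Kp (E' \ gadN c) ∧ Kp (insert x (E' \ gadN c)) ∧
  c ∈ Kil J l (insert x (E' \ gadN c)) ∧ tri (insert x (E' \ gadN c)) ≤ L ∧ ¬ Um ...`,
and by `Wsum_eq` this is the number of triples `(ω, t, c)` with `B_c (pre ω t) (ω t)`.  Each such
triple satisfies `Vl Kp L ω t c`, so for fixed `ω` there are at most `DD J l L` of them (`Vl_time`,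
`Vl_count`).  If there is at least one, then `Suc (l+1) M ω`: at time `t + 1` the graph is
`insert x E ∪ gadN c` (`Vl_pre`), which is dead as `c ∈ Kil J l (insert x E)` and has no
`Um (l+1+1) M` by `neutral`.
-/

open Finset
open scoped Classical Nat

namespace Pool.Agent.Work.MP_73831e_pr.F

private theorem gd_anti {J : Type} {l n : ℕ} {G H : SimpleGraph (Fin n)} (h : H ≤ G)
    {c : Cg J l n} (hc : Gd G c) : Gd H c :=
  ⟨fun j a => iso.anti h (hc.iso j a), hc.inj, hc.off, hc.ainj⟩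

private def Bc {J : Type} [Fintype J] {l n : ℕ} (M L : ℕ) (Kp : Finset (Pr n) → Prop)
    (c : Cg J l n) (E' : Finset (Pr n)) (x : Pr n) : Prop :=
  gadN c ⊆ E' ∧ ¬ Kp (E' \ gadN c) ∧ Kp (insert x (E' \ gadN c)) ∧
    ¬ Um (l + 1 + 1) M (gr (insert x (E' \ gadN c))) ∧ tri (insert x (E' \ gadN c)) ≤ L ∧
    c ∈ Kil J l (insert x (E' \ gadN c))

private theorem bc_vl {J : Type} [Fintype J] {l n M L : ℕ} {Kp : Finset (Pr n) → Prop}
    {ω : Ordr (Pr n)} {t : Fin (Fintype.card (Pr n))} {c : Cg J l n}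
    (h : Bc M L Kp c (pre ω t) (ω t)) : Vl Kp L ω t c := by
  obtain ⟨h1, h2, h3, -, h5, h6⟩ := h
  unfold Kil at h6
  rw [mem_filter] at h6
  exact ⟨h1, h2, h3, h6.2.1, h5⟩

private theorem bc_suc {J : Type} [Fintype J] {l n M L : ℕ} (hM : 3 * l + 4 ≤ M)
    {Kp : Finset (Pr n) → Prop}
    {ω : Ordr (Pr n)} {t : Fin (Fintype.card (Pr n))} {c : Cg J l n}
    (h : Bc M L Kp c (pre ω t) (ω t)) : Suc (l + 1) M ω := by
  have hv := bc_vl h
  obtain ⟨h1, h2, h3, h4, h5, h6⟩ := h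
  unfold Kil at h6
  rw [mem_filter] at h6
  refine ⟨(t : ℕ) + 1, ?_, ?_⟩
  · rw [Vl_pre hv]
    exact h6.2.2
  · rw [Vl_pre hv]
    exact fun h7 => h4 (neutral h6.2.1 hM h7)

private theorem key {J : Type} [Fintype J] {l n M L : ℕ}
    {Kp : Finset (Pr n) → Prop} (c : Cg J l n) :
    ∑ p ∈ univ.filter (fun p : Finset (Pr n) × Pr n => (p.2 ∉ p.1 ∧ ¬ Kp p.1 ∧
        Kp (insert p.2 p.1) ∧ ¬ Um (l + 1 + 1) M (gr (insert p.2 p.1)) ∧
        tri (insert p.2 p.1) ≤ L) ∧ c ∈ Kil J l (insert p.2 p.1)), wt (p.1 ∪ gadN c) ≤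
      Wsum (Bc M L Kp c) := by
  have hW : Wsum (Bc M L Kp c) = ∑ p ∈ univ.filter (fun p : Finset (Pr n) × Pr n =>
      p.2 ∉ p.1 ∧ Bc M L Kp c p.1 p.2), wt p.1 := by
    unfold Wsum
    rw [Finset.sum_filter, Fintype.sum_prod_type]
    refine Finset.sum_congr rfl fun E _ => ?_
    rw [Finset.sum_filter]
    refine Finset.sum_congr rfl fun a _ => ?_
    by_cases h : a ∉ E ∧ Bc M L Kp c E a
    · rw [if_pos h, if_pos h]
    · rw [if_neg h, if_neg h]
  rw [hW]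
  have hgd : ∀ p : Finset (Pr n) × Pr n, c ∈ Kil J l (insert p.2 p.1) →
      Gd (gr (insert p.2 p.1)) c ∧ Gd (gr p.1) c := by
    intro p hp
    unfold Kil at hp
    rw [mem_filter] at hp
    exact ⟨hp.2.1, gd_anti (gr_mono (Finset.subset_insert _ _)) hp.2.1⟩
  have hinj : Set.InjOn (fun p : Finset (Pr n) × Pr n => (p.1 ∪ gadN c, p.2))
      (univ.filter (fun p : Finset (Pr n) × Pr n => (p.2 ∉ p.1 ∧ ¬ Kp p.1 ∧
        Kp (insert p.2 p.1) ∧ ¬ Um (l + 1 + 1) M (gr (insert p.2 p.1)) ∧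
        tri (insert p.2 p.1) ≤ L) ∧ c ∈ Kil J l (insert p.2 p.1))) := by
    intro p hp p' hp' h
    rw [Finset.mem_coe, mem_filter] at hp hp'
    have h1 := gad_sdiff (hgd p hp.2.2).2
    have h2 := gad_sdiff (hgd p' hp'.2.2).2
    obtain ⟨h3, h4⟩ := Prod.ext_iff.1 h
    have h5 : p.1 ∪ gadN c = p'.1 ∪ gadN c := h3
    rw [h5, h2] at h1
    exact Prod.ext h1.symm h4
  have hs := Finset.sum_image (f := fun q : Finset (Pr n) × Pr n => wt q.1) hinj
  rw [show (∑ p ∈ univ.filter (fun p : Finset (Pr n) × Pr n => (p.2 ∉ p.1 ∧ ¬ Kp p.1 ∧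
        Kp (insert p.2 p.1) ∧ ¬ Um (l + 1 + 1) M (gr (insert p.2 p.1)) ∧
        tri (insert p.2 p.1) ≤ L) ∧ c ∈ Kil J l (insert p.2 p.1)), wt (p.1 ∪ gadN c)) = _
      from hs.symm]
  refine Finset.sum_le_sum_of_subset ?_
  intro q hq
  obtain ⟨p, hp, rfl⟩ := Finset.mem_image.1 hq
  rw [mem_filter] at hp
  obtain ⟨-, ⟨h1, h2, h3, h4, h5⟩, h6⟩ := hp
  have hg := hgd p h6
  rw [mem_filter]
  refine ⟨mem_univ _, ?_, ?_⟩
  · have h7 := gad_disj hg.1
    rw [Finset.disjoint_left] at h7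
    have h8 := h7 (Finset.mem_insert_self p.2 p.1)
    rw [Finset.mem_union]
    exact fun h => h.elim h1 h8
  · have e : (p.1 ∪ gadN c) \ gadN c = p.1 := gad_sdiff hg.2
    unfold Bc
    simp only [e]
    exact ⟨Finset.subset_union_right, h2, h3, h4, h5, h6⟩

private theorem per_ord {J : Type} [Fintype J] {l n M L : ℕ} (hM : 3 * l + 4 ≤ M)
    {Kp : Finset (Pr n) → Prop} (hKp : ∀ E F, E ⊆ F → Kp E → Kp F) (ω : Ordr (Pr n)) :
    (univ.filter (fun q : Cg J l n × Fin (Fintype.card (Pr n)) =>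
      Bc M L Kp q.1 (pre ω q.2) (ω q.2))).card ≤ if Suc (l + 1) M ω then DD J l L else 0 := by
  split_ifs with hS
  · refine le_trans ?_ (Vl_count (Kp := Kp) (L := L) ω)
    refine Finset.card_le_card_of_injOn (fun q => q.1) ?_ ?_
    · intro q hq
      rw [Finset.mem_coe, mem_filter] at hq
      rw [Finset.mem_coe, mem_filter]
      exact ⟨mem_univ _, q.2, bc_vl hq.2⟩
    · intro q hq q' hq' h
      rw [Finset.mem_coe, mem_filter] at hq hq'
      have h1 : q.1 = q'.1 := h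
      have h2 := bc_vl hq.2
      have h3 := bc_vl hq'.2
      rw [← h1] at h3
      exact Prod.ext h1 (Vl_time hKp h2 h3)
  · rw [Nat.le_zero, Finset.card_eq_zero, Finset.filter_eq_empty_iff]
    intro q _ hq
    exact hS (bc_suc hM hq)

theorem exch {J : Type} [Fintype J] {l n M L : ℕ} (hM : 3 * l + 4 ≤ M)
    {Kp : Finset (Pr n) → Prop} (hKp : ∀ E F, E ⊆ F → Kp E → Kp F) :
    ∑ E : Finset (Pr n), ∑ x ∈ univ.filter (fun x => x ∉ E ∧ ¬ Kp E ∧ Kp (insert x E) ∧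
        ¬ Um (l + 1 + 1) M (gr (insert x E)) ∧ tri (insert x E) ≤ L),
      ∑ c ∈ Kil J l (insert x E), wt (E ∪ gadN c)
      ≤ DD J l L * Nat.card {ω : Ordr (Pr n) // Suc (l + 1) M ω} := by
  have e1 : ∑ E : Finset (Pr n), ∑ x ∈ univ.filter (fun x => x ∉ E ∧ ¬ Kp E ∧ Kp (insert x E) ∧
        ¬ Um (l + 1 + 1) M (gr (insert x E)) ∧ tri (insert x E) ≤ L),
      ∑ c ∈ Kil J l (insert x E), wt (E ∪ gadN c) =
      ∑ c : Cg J l n, ∑ p ∈ univ.filter (fun p : Finset (Pr n) × Pr n => (p.2 ∉ p.1 ∧ ¬ Kp p.1 ∧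
        Kp (insert p.2 p.1) ∧ ¬ Um (l + 1 + 1) M (gr (insert p.2 p.1)) ∧
        tri (insert p.2 p.1) ≤ L) ∧ c ∈ Kil J l (insert p.2 p.1)), wt (p.1 ∪ gadN c) := by
    have e2 : ∀ c : Cg J l n, ∑ p ∈ univ.filter (fun p : Finset (Pr n) × Pr n =>
        (p.2 ∉ p.1 ∧ ¬ Kp p.1 ∧
        Kp (insert p.2 p.1) ∧ ¬ Um (l + 1 + 1) M (gr (insert p.2 p.1)) ∧
        tri (insert p.2 p.1) ≤ L) ∧ c ∈ Kil J l (insert p.2 p.1)), wt (p.1 ∪ gadN c) =
        ∑ E : Finset (Pr n), ∑ x : Pr n, if (x ∉ E ∧ ¬ Kp E ∧ Kp (insert x E) ∧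
          ¬ Um (l + 1 + 1) M (gr (insert x E)) ∧ tri (insert x E) ≤ L) ∧
          c ∈ Kil J l (insert x E) then wt (E ∪ gadN c) else 0 := by
      intro c
      rw [Finset.sum_filter, Fintype.sum_prod_type]
    rw [Finset.sum_congr rfl fun c _ => e2 c, Finset.sum_comm]
    refine Finset.sum_congr rfl fun E _ => ?_
    rw [Finset.sum_comm, Finset.sum_filter]
    refine Finset.sum_congr rfl fun x _ => ?_
    by_cases hx : x ∉ E ∧ ¬ Kp E ∧ Kp (insert x E) ∧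
          ¬ Um (l + 1 + 1) M (gr (insert x E)) ∧ tri (insert x E) ≤ L
    · rw [if_pos hx]
      have h1 : ∀ c : Cg J l n, (if (x ∉ E ∧ ¬ Kp E ∧ Kp (insert x E) ∧
          ¬ Um (l + 1 + 1) M (gr (insert x E)) ∧ tri (insert x E) ≤ L) ∧
          c ∈ Kil J l (insert x E) then wt (E ∪ gadN c) else 0) =
          if c ∈ Kil J l (insert x E) then wt (E ∪ gadN c) else 0 := by
        intro c
        by_cases hc : c ∈ Kil J l (insert x E)
        · rw [if_pos ⟨hx, hc⟩, if_pos hc]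
        · rw [if_neg (fun h => hc h.2), if_neg hc]
      rw [Finset.sum_congr rfl fun c _ => h1 c, Finset.sum_ite_mem, Finset.univ_inter]
    · rw [if_neg hx]
      symm
      refine Finset.sum_eq_zero fun c _ => ?_
      rw [if_neg fun h => hx h.1]
  rw [e1]
  calc _ ≤ ∑ c : Cg J l n, Wsum (Bc M L Kp c) := Finset.sum_le_sum fun c _ => key c
    _ = ∑ c : Cg J l n, (univ.filter (fun z : Ordr (Pr n) × Fin (Fintype.card (Pr n)) =>
          Bc M L Kp c (pre z.1 z.2) (z.1 z.2))).card := by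
        refine Finset.sum_congr rfl fun c _ => ?_
        rw [Wsum_eq, Nat.card_eq_fintype_card, Fintype.card_subtype]
    _ = ∑ ω : Ordr (Pr n), (univ.filter (fun q : Cg J l n × Fin (Fintype.card (Pr n)) =>
          Bc M L Kp q.1 (pre ω q.2) (ω q.2))).card := by
        simp only [Finset.card_filter, Fintype.sum_prod_type]
        rw [Finset.sum_comm]
    _ ≤ ∑ ω : Ordr (Pr n), if Suc (l + 1) M ω then DD J l L else 0 :=
        Finset.sum_le_sum fun ω _ => per_ord hM hKp ω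
    _ = DD J l L * Nat.card {ω : Ordr (Pr n) // Suc (l + 1) M ω} := by
        have hc : Nat.card {ω : Ordr (Pr n) // Suc (l + 1) M ω} =
            (univ.filter (fun ω : Ordr (Pr n) => Suc (l + 1) M ω)).card := by
          rw [Nat.card_eq_fintype_card, Fintype.card_subtype]
        rw [hc, ← Finset.sum_filter, Finset.sum_const, smul_eq_mul, mul_comm]

end Pool.Agent.Work.MP_73831e_pr.F
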