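import Pool.Agent.Work.MP_73831e_pr.F.Defs

/-!
MODULE P/List3 (S-M).  A list colouring of at most three vertices from lists of size `≥ 2` is never
unique.

For `s ∈ T` let `Λ s` be the set of colours not used by `f` on the neighbours of `s` outside `T`; it
has at least two elements (`l + 2` colours, at most `l` neighbours outside `T`) and contains `f s`.
Choose `c s ∈ Λ s`, `c s ≠ f s`.  If for some `s ∈ T` no neighbour `t ∈ T` of `s` has `f t = c s`,
then `g := update f s (c s)` works.  So assume: every `s ∈ T` has a neighbour `t ∈ T` with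
`f t = c s` (so `t ≠ s`, and `|T| ≥ 2`).
* `|T| = 2`, `T = {s, t}`: `c s = f t`, `c t = f s`, swap the two colours.
* `|T| = 3`, `T = {s, t, u}`, the three colours distinct: the map `σ` (`f (σ s) = c s`) has no fixed
  point; it has a 2-cycle (exchange the two colours) or is a 3-cycle (`g := f ∘ σ` on `T`); the
  values of `g` on `T` are distinct and `g s ∈ Λ s` where it was changed, so `g` is proper.
* `|T| = 3` and two colours are equal, say `f t = f u` (then `t, u` are not adjacent).  If also
  `f s = f t` then there are no edges inside `T`, contradiction.  Otherwise `c t = f s`, `c u = f s`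
  (a vertex of `T` with colour `c t ≠ f t` must be `s`), `c s = f t`.  Take `g s = f t`,
  `g t = g u = f s`: proper.
-/

open Finset
open scoped Classical Nat

namespace Pool.Agent.Work.MP_73831e_pr.F

private theorem flip {V : Type} {k : ℕ} {H : SimpleGraph V} {f c : V → Fin k}
    (hf : PC k H f) {T : Finset V}
    (hc : ∀ s ∈ T, c s ≠ f s ∧ ∀ v, H.Adj s v → v ∉ T → f v ≠ c s) (A : Finset V) (hA : A ⊆ T)
    (hne : A.Nonempty)
    (h : ∀ u ∈ T, ∀ v ∈ T, H.Adj u v →
      (if u ∈ A then c u else f u) ≠ (if v ∈ A then c v else f v)) :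
    ∃ g : V → Fin k, PC k H g ∧ (∀ v, v ∉ T → g v = f v) ∧ ∃ s ∈ T, g s ≠ f s := by
  refine ⟨fun v => if v ∈ A then c v else f v, ?_, ?_, ?_⟩
  · intro u v huv
    show (if u ∈ A then c u else f u) ≠ (if v ∈ A then c v else f v)
    by_cases hu : u ∈ T
    · by_cases hv : v ∈ T
      · exact h u hu v hv huv
      · have hvA : v ∉ A := fun h => hv (hA h)
        rw [if_neg hvA]
        by_cases huA : u ∈ A
        · rw [if_pos huA]
          exact ((hc u hu).2 v huv hv).symm
        · rw [if_neg huA]
          exact hf u v huv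
    · have huA : u ∉ A := fun h => hu (hA h)
      rw [if_neg huA]
      by_cases hvA : v ∈ A
      · rw [if_pos hvA]
        exact (hc v (hA hvA)).2 u huv.symm hu
      · rw [if_neg hvA]
        exact hf u v huv
  · intro v hv
    show (if v ∈ A then c v else f v) = f v
    rw [if_neg (fun h => hv (hA h))]
  · obtain ⟨s, hs⟩ := hne
    refine ⟨s, hA hs, ?_⟩
    show (if s ∈ A then c s else f s) ≠ f s
    rw [if_pos hs]
    exact (hc s (hA hs)).1

private theorem three {V : Type} {k : ℕ} {H : SimpleGraph V} {f c : V → Fin k}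
    (hf : PC k H f) {T : Finset V}
    (hc : ∀ s ∈ T, c s ≠ f s ∧ ∀ v, H.Adj s v → v ∉ T → f v ≠ c s) {s t w : V}
    (hT : T = {s, t, w}) (hst : H.Adj s t) (h1 : f t = c s) (h2 : f s = c t) (hws : H.Adj w s)
    (h3 : f s = c w) (hwt : w ≠ t) :
    ∃ g : V → Fin k, PC k H g ∧ (∀ v, v ∉ T → g v = f v) ∧ ∃ s ∈ T, g s ≠ f s := by
  have hts := hf t s hst.symm
  have hws' := hf w s hws
  have hs : s ∈ T := by rw [hT]; simp
  have ht : t ∈ T := by rw [hT]; simp
  by_cases h4 : f t = f w
  · refine flip hf hc T subset_rfl ⟨s, hs⟩ fun u hu v hv huv => ?_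
    rw [if_pos hu, if_pos hv]
    rw [hT] at hu hv
    simp only [mem_insert, mem_singleton] at hu hv
    rcases hu with rfl | rfl | rfl <;> rcases hv with rfl | rfl | rfl
    · exact absurd huv (H.loopless.irrefl _)
    · rw [← h1, ← h2]; exact hts
    · rw [← h1, ← h3]; exact hts
    · rw [← h1, ← h2]; exact hts.symm
    · exact absurd huv (H.loopless.irrefl _)
    · exact absurd h4 (hf _ _ huv)
    · rw [← h1, ← h3]; exact hts.symm
    · exact absurd h4 (hf _ _ huv.symm)
    · exact absurd huv (H.loopless.irrefl _)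
  · refine flip hf hc {s, t} ?_ ⟨s, by simp⟩ fun u hu v hv huv => ?_
    · intro x hx
      simp only [mem_insert, mem_singleton] at hx
      rcases hx with rfl | rfl
      · exact hs
      · exact ht
    · have hsA : s ∈ ({s, t} : Finset V) := by simp
      have htA : t ∈ ({s, t} : Finset V) := by simp
      have hwA : w ∉ ({s, t} : Finset V) := by
        simp only [mem_insert, mem_singleton, not_or]
        exact ⟨hws.ne, hwt⟩
      rw [hT] at hu hv
      simp only [mem_insert, mem_singleton] at hu hv
      rcases hu with rfl | rfl | rfl <;> rcases hv with rfl | rfl | rfl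
      · exact absurd huv (H.loopless.irrefl _)
      · rw [if_pos hsA, if_pos htA, ← h1, ← h2]; exact hts
      · rw [if_pos hsA, if_neg hwA, ← h1]; exact h4
      · rw [if_pos hsA, if_pos htA, ← h1, ← h2]; exact hts.symm
      · exact absurd huv (H.loopless.irrefl _)
      · rw [if_pos htA, if_neg hwA, ← h2]; exact hws'.symm
      · rw [if_pos hsA, if_neg hwA, ← h1]; exact fun h => h4 h.symm
      · rw [if_pos htA, if_neg hwA, ← h2]; exact hws'
      · exact absurd huv (H.loopless.irrefl _)

private theorem two {V : Type} {k : ℕ} {H : SimpleGraph V} {f c : V → Fin k}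
    (hf : PC k H f) {T : Finset V} (hT : T.card ≤ 3)
    (hc : ∀ s ∈ T, c s ≠ f s ∧ ∀ v, H.Adj s v → v ∉ T → f v ≠ c s)
    (hσ : ∀ s ∈ T, ∃ t ∈ T, H.Adj s t ∧ f t = c s) {s t : V} (hs : s ∈ T) (ht : t ∈ T)
    (hst : H.Adj s t) (h1 : f t = c s) (h2 : f s = c t) :
    ∃ g : V → Fin k, PC k H g ∧ (∀ v, v ∉ T → g v = f v) ∧ ∃ s ∈ T, g s ≠ f s := by
  have hts := hf t s hst.symm
  by_cases hw : ∃ w ∈ T, w ≠ s ∧ w ≠ t
  · obtain ⟨w, hwT, hws, hwt⟩ := hw
    have hTe : T = {s, t, w} := by
      symm
      apply eq_of_subset_of_card_le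
      · intro x hx
        simp only [mem_insert, mem_singleton] at hx
        rcases hx with rfl | rfl | rfl
        · exact hs
        · exact ht
        · exact hwT
      · rw [card_eq_three.2 ⟨s, t, w, hst.ne, hws.symm, hwt.symm, rfl⟩]
        exact hT
    obtain ⟨r, hr, hwr, hrc⟩ := hσ w hwT
    have hr' := hr
    rw [hTe] at hr'
    simp only [mem_insert, mem_singleton] at hr'
    rcases hr' with rfl | rfl | rfl
    · exact three hf hc hTe hst h1 h2 hwr hrc hwt
    · have hTe' : T = {r, s, w} := by
        rw [hTe]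
        ext x
        simp only [mem_insert, mem_singleton]
        tauto
      exact three hf hc hTe' hst.symm h2 h1 hwr hrc hws
    · exact absurd hwr (H.loopless.irrefl _)
  · push Not at hw
    have hst' : ∀ x ∈ T, x = s ∨ x = t := by
      intro x hx
      by_cases hxs : x = s
      · exact Or.inl hxs
      · exact Or.inr (hw x hx hxs)
    refine flip hf hc T subset_rfl ⟨s, hs⟩ fun u hu v hv huv => ?_
    rw [if_pos hu, if_pos hv]
    rcases hst' u hu with rfl | rfl <;> rcases hst' v hv with rfl | rfl
    · exact absurd huv (H.loopless.irrefl _)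
    · rw [← h1, ← h2]; exact hts
    · rw [← h1, ← h2]; exact hts.symm
    · exact absurd huv (H.loopless.irrefl _)

theorem list3 {V : Type} [Finite V] {l : ℕ} {H : SimpleGraph V} {f : V → Fin (l + 1 + 1)}
    (hf : PC (l + 1 + 1) H f) {T : Finset V} (hT : T.card ≤ 3) (hne : T.Nonempty)
    (hd : ∀ s ∈ T, Set.ncard {v | H.Adj s v ∧ v ∉ T} ≤ l) :
    ∃ g : V → Fin (l + 1 + 1), PC (l + 1 + 1) H g ∧ (∀ v, v ∉ T → g v = f v) ∧
      ∃ s ∈ T, g s ≠ f s := by
  have hex : ∀ s, ∃ x : Fin (l + 1 + 1), s ∈ T → x ≠ f s ∧ ∀ v, H.Adj s v → v ∉ T → f v ≠ x := by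
    intro s
    by_cases hs : s ∈ T
    · have hfin : {v | H.Adj s v ∧ v ∉ T}.Finite := Set.toFinite _
      have hcard : (insert (f s) (hfin.toFinset.image f)).card < (univ : Finset (Fin (l + 1 + 1))).card := by
        rw [card_univ, Fintype.card_fin]
        have h1 := card_insert_le (f s) (hfin.toFinset.image f)
        have h2 : (hfin.toFinset.image f).card ≤ hfin.toFinset.card := card_image_le
        have h3 : hfin.toFinset.card ≤ l := by
          rw [← Set.ncard_eq_toFinset_card _ hfin]
          exact hd s hs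
        omega
      obtain ⟨x, -, hx⟩ := exists_mem_notMem_of_card_lt_card hcard
      refine ⟨x, fun _ => ⟨fun h => hx ?_, fun v hv hvT h => hx ?_⟩⟩
      · rw [h]; exact mem_insert_self _ _
      · rw [← h]
        exact mem_insert_of_mem (mem_image_of_mem _ (hfin.mem_toFinset.2 ⟨hv, hvT⟩))
    · exact ⟨f s, fun h => absurd h hs⟩
  choose c hc using hex
  by_cases hσ : ∀ s ∈ T, ∃ t ∈ T, H.Adj s t ∧ f t = c s
  · obtain ⟨s, hs⟩ := hne
    obtain ⟨t, ht, hst, h1⟩ := hσ s hs
    obtain ⟨u, hu, htu, h2⟩ := hσ t ht
    by_cases hus : u = s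
    · subst hus
      exact two hf hT hc hσ hs ht hst h1 h2
    · have hTe : T = {s, t, u} := by
        symm
        apply eq_of_subset_of_card_le
        · intro x hx
          simp only [mem_insert, mem_singleton] at hx
          rcases hx with rfl | rfl | rfl
          · exact hs
          · exact ht
          · exact hu
        · rw [card_eq_three.2 ⟨s, t, u, hst.ne, fun h => hus h.symm, htu.ne, rfl⟩]
          exact hT
      obtain ⟨r, hr, hur, h3⟩ := hσ u hu
      have hr' := hr
      rw [hTe] at hr'
      simp only [mem_insert, mem_singleton] at hr'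
      rcases hr' with rfl | rfl | rfl
      · -- a 3-cycle
        have e1 := hf _ _ hst
        have e2 := hf _ _ htu
        have e3 := hf _ _ hur
        refine flip hf hc T subset_rfl ⟨t, ht⟩ fun a ha b hb hab => ?_
        rw [if_pos ha, if_pos hb]
        rw [hTe] at ha hb
        simp only [mem_insert, mem_singleton] at ha hb
        rcases ha with rfl | rfl | rfl <;> rcases hb with rfl | rfl | rfl
        · exact absurd hab (H.loopless.irrefl _)
        · rw [← h1, ← h2]; exact e2
        · rw [← h1, ← h3]; exact e1.symm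
        · rw [← h1, ← h2]; exact e2.symm
        · exact absurd hab (H.loopless.irrefl _)
        · rw [← h2, ← h3]; exact e3
        · rw [← h1, ← h3]; exact e1
        · rw [← h2, ← h3]; exact e3.symm
        · exact absurd hab (H.loopless.irrefl _)
      · exact two hf hT hc hσ ht hu htu h2 h3
      · exact absurd hur (H.loopless.irrefl _)
  · push Not at hσ
    obtain ⟨s, hs, h1⟩ := hσ
    refine flip hf hc {s} (by simpa using hs) ⟨s, by simp⟩ fun u hu v hv huv => ?_
    by_cases hus : u = s
    · subst hus
      have hvu : v ∉ ({u} : Finset V) := by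
        rw [mem_singleton]; exact huv.ne.symm
      rw [if_pos (mem_singleton_self u), if_neg hvu]
      exact fun h => h1 v hv huv h.symm
    · have hu' : u ∉ ({s} : Finset V) := by rwa [mem_singleton]
      rw [if_neg hu']
      by_cases hvs : v = s
      · subst hvs
        rw [if_pos (mem_singleton_self v)]
        exact h1 u hu huv.symm
      · have hv' : v ∉ ({s} : Finset V) := by rwa [mem_singleton]
        rw [if_neg hv']
        exact hf u v huv

end Pool.Agent.Work.MP_73831e_pr.F
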