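import Pool.Agent.Work.MP_73831e_pr.F.P.TriG

/-!
MODULE P/Mult (M-L).  For a fixed ordering `ω` there are few pairs `(t, c)` such that, after removing
the gadgets of `c`, the process makes its crossing into `Kp` exactly at step `t`.

`Vl Kp L ω t c`: `gadN c ⊆ pre ω t`, and with `E = pre ω t \ gadN c`, `x = ω t`: `¬ Kp E`,
`Kp (insert x E)`, `c` is good for `gr (insert x E)`, and `tri (insert x E) ≤ L`.

* `Vl_time`: for fixed `c` there is at most one `t`: if `t < t'` are both valid, then `x ∉ gadN c`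
  (as `gadN c ⊆ pre ω t` and `x ∉ pre ω t`), `insert x (pre ω t \ gadN c) = pre ω (t+1) \ gadN c
  ⊆ pre ω t' \ gadN c`, and `Kp` is increasing: contradiction with `¬ Kp (pre ω t' \ gadN c)`.
* `Vl_pre`: `pre ω (t+1) = insert x E ∪ gadN c`.
* `Vl_count`: the number of `c` which are valid for some `t` is at most
  `(L + 9 |J| (l+2)^2) ^ |J| * (l ^ l) ^ (3 |J|)`.
  Proof.  For valid `c` let `t_c` be its time; let `c*` be a valid one with `t_c` maximal and
  `Q = pre ω (t_{c*} + 1) = insert x* E* ∪ gadN c*`, so `tri Q ≤ L + 9 |J| (l+2)^2` by `tri_gad`.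
  For valid `c` we have `gadN c ⊆ pre ω t_c ⊆ Q`, so for every `j` the triple
  `((c j 0).1, (c j 1).1, (c j 2).1)` is an ordered triangle of `Q`.  So the map
  `c ↦ (j ↦ triple)` takes at most `(tri Q) ^ |J|` values on the set of the valid `c`.
  Fibres: let `c, c'` be valid with the same new vertices, `t_c ≤ t_{c'}`.  By `Vl_pre` and
  `gad_nb`, `gad_dg` the neighbourhoods of `(c j a).1` in `pre ω (t_c + 1)` and in
  `pre ω (t_{c'} + 1)` both have `l + 2` elements and the first is contained in the second, so they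
  are equal; subtracting the two other triangle vertices (`gad_nb_disj`) the SETS of attachments of
  `(c j a).1` and `(c' j a).1` are equal (a set with `l` elements).  So a fibre has at most
  `(l ^ l) ^ (3 |J|)` elements (functions `Fin l →` that set, for all `(j, a)`).
  Conclude with `Finset.card_le_mul_card_image`.
-/

open Finset
open scoped Classical Nat

namespace Pool.Agent.Work.MP_73831e_pr.F

variable {J : Type} [Fintype J] {l n : ℕ}

def Vl (Kp : Finset (Pr n) → Prop) (L : ℕ) (ω : Ordr (Pr n)) (t : Fin (Fintype.card (Pr n)))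
    (c : Cg J l n) : Prop :=
  gadN c ⊆ pre ω t ∧ ¬ Kp (pre ω t \ gadN c) ∧ Kp (insert (ω t) (pre ω t \ gadN c)) ∧
    Gd (gr (insert (ω t) (pre ω t \ gadN c))) c ∧ tri (insert (ω t) (pre ω t \ gadN c)) ≤ L

omit [Fintype J] in
private theorem ins_eq {Kp : Finset (Pr n) → Prop} {L : ℕ}
    {ω : Ordr (Pr n)} {t : Fin (Fintype.card (Pr n))} {c : Cg J l n} (h : Vl Kp L ω t c) :
    insert (ω t) (pre ω t \ gadN c) = pre ω ((t : ℕ) + 1) \ gadN c := by
  have h1 : ω t ∉ gadN c := fun h2 => not_mem_pre ω t (h.1 h2)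
  rw [pre_succ ω t.2, insert_sdiff_of_notMem _ h1]

private theorem time_aux {Kp : Finset (Pr n) → Prop} (hKp : ∀ E F, E ⊆ F → Kp E → Kp F) {L : ℕ}
    {ω : Ordr (Pr n)} {t t' : Fin (Fintype.card (Pr n))} {c : Cg J l n} (h : Vl Kp L ω t c)
    (h' : Vl Kp L ω t' c) (hlt : t < t') : False := by
  have h1 := h.2.2.1
  rw [ins_eq h] at h1
  refine h'.2.1 (hKp _ _ ?_ h1)
  exact sdiff_subset_sdiff (pre_mono ω (Nat.succ_le_of_lt hlt)) (Subset.refl _)

theorem Vl_time {Kp : Finset (Pr n) → Prop} (hKp : ∀ E F, E ⊆ F → Kp E → Kp F) {L : ℕ}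
    {ω : Ordr (Pr n)} {t t' : Fin (Fintype.card (Pr n))} {c : Cg J l n} (h : Vl Kp L ω t c)
    (h' : Vl Kp L ω t' c) : t = t' := by
  rcases lt_trichotomy t t' with h1 | h1 | h1
  · exact (time_aux hKp h h' h1).elim
  · exact h1
  · exact (time_aux hKp h' h h1).elim

theorem Vl_pre {Kp : Finset (Pr n) → Prop} {L : ℕ}
    {ω : Ordr (Pr n)} {t : Fin (Fintype.card (Pr n))} {c : Cg J l n} (h : Vl Kp L ω t c) :
    pre ω ((t : ℕ) + 1) = insert (ω t) (pre ω t \ gadN c) ∪ gadN c := by
  rw [pre_succ ω t.2, insert_union, sdiff_union_of_subset h.1]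

private theorem nb_mono {E F : Finset (Pr n)} (h : E ⊆ F) (x : Fin n) : nb E x ⊆ nb F x := by
  intro y hy
  unfold nb at hy ⊢
  rw [mem_filter] at hy ⊢
  exact ⟨mem_univ _, gr_mono h hy.2⟩

private theorem att_aux {Kp : Finset (Pr n) → Prop} {L : ℕ} {ω : Ordr (Pr n)}
    {t t' : Fin (Fintype.card (Pr n))} {c c' : Cg J l n} (h : Vl Kp L ω t c)
    (h' : Vl Kp L ω t' c') (hv : ∀ j a, (c j a).1 = (c' j a).1) (htt : t ≤ t') (j : J) (a : Fin 3) :
    univ.image (fun i : Fin l => (c j a).2 i) = univ.image (fun i : Fin l => (c' j a).2 i) := by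
  have hg := h.2.2.2.1
  have hg' := h'.2.2.2.1
  have e1 := gad_nb hg j a
  have e2 := gad_nb hg' j a
  have d1 := gad_dg hg j a
  have d2 := gad_dg hg' j a
  have j1 := gad_nb_disj hg j a
  have j2 := gad_nb_disj hg' j a
  rw [← Vl_pre h] at e1 d1
  rw [← Vl_pre h'] at e2 d2
  have hsub : nb (pre ω ((t : ℕ) + 1)) (c j a).1 ⊆ nb (pre ω ((t' : ℕ) + 1)) (c j a).1 :=
    nb_mono (pre_mono ω (Nat.succ_le_succ htt)) _
  rw [hv j a] at hsub e1 d1
  have heq := eq_of_subset_of_card_le hsub (le_of_eq (by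
    unfold dg at d1 d2
    rw [d1, d2]))
  rw [e1, e2] at heq
  have ho : (univ.filter (fun b : Fin 3 => b ≠ a)).image (fun b => (c j b).1) =
      (univ.filter (fun b : Fin 3 => b ≠ a)).image (fun b => (c' j b).1) := by
    simp only [hv]
  rw [ho] at heq j1
  ext x
  constructor
  · intro hx
    have h1 := mem_union_right
      ((univ.filter (fun b : Fin 3 => b ≠ a)).image (fun b => (c' j b).1)) hx
    rw [heq] at h1
    rcases mem_union.1 h1 with h2 | h2
    · exact absurd hx (disjoint_left.1 j1 h2)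
    · exact h2
  · intro hx
    have h1 := mem_union_right
      ((univ.filter (fun b : Fin 3 => b ≠ a)).image (fun b => (c' j b).1)) hx
    rw [← heq] at h1
    rcases mem_union.1 h1 with h2 | h2
    · exact absurd hx (disjoint_left.1 j2 h2)
    · exact h2

omit [Fintype J] in
private theorem adj_gad {E : Finset (Pr n)} {c : Cg J l n} {Q : Finset (Pr n)}
    (hc : Gd (gr E) c) (hQ : gadN c ⊆ Q) (j : J) {a b : Fin 3} (hab : a ≠ b) :
    (gr Q).Adj (c j a).1 (c j b).1 := by
  have hne : (c j a).1 ≠ (c j b).1 := fun h => hab (hc.inj j a j b h).2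
  rw [gr_adj']
  refine ⟨⟨s((c j a).1, (c j b).1), fun h => hne (Sym2.mk_isDiag_iff.1 h)⟩, hQ ?_, rfl⟩
  unfold gadN
  rw [mem_filter]
  exact ⟨mem_univ _, Or.inl ⟨j, a, b, rfl⟩⟩

/-- Multiplicity constant. -/
def DD (J : Type) [Fintype J] (l L : ℕ) : ℕ :=
  (L + 9 * Fintype.card J * (l + 2) ^ 2) ^ Fintype.card J * (l ^ l) ^ (3 * Fintype.card J)

theorem Vl_count {Kp : Finset (Pr n) → Prop} {L : ℕ} (ω : Ordr (Pr n)) :
    (univ.filter (fun c : Cg J l n => ∃ t, Vl Kp L ω t c)).card ≤ DD J l L := by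
  set S : Finset (Cg J l n) := univ.filter (fun c : Cg J l n => ∃ t, Vl Kp L ω t c) with hS
  rcases S.eq_empty_or_nonempty with h0 | h0
  · rw [h0, card_empty]
    exact Nat.zero_le _
  obtain ⟨c1, hc1⟩ := h0
  obtain ⟨t1, -⟩ := (mem_filter.1 hc1).2
  let T : Cg J l n → Fin (Fintype.card (Pr n)) := fun c =>
    if h : ∃ t, Vl Kp L ω t c then h.choose else t1
  have hT : ∀ c ∈ S, Vl Kp L ω (T c) c := by
    intro c hc
    have h1 := (mem_filter.1 hc).2
    show Vl Kp L ω (if h : ∃ t, Vl Kp L ω t c then h.choose else t1) c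
    rw [dif_pos h1]
    exact h1.choose_spec
  obtain ⟨cs, hcs, hmax⟩ := exists_max_image S T ⟨c1, hc1⟩
  have hVs := hT cs hcs
  set Q : Finset (Pr n) := pre ω ((T cs : ℕ) + 1) with hQ
  have htri : tri Q ≤ L + 9 * Fintype.card J * (l + 2) ^ 2 := by
    rw [hQ, Vl_pre hVs]
    exact (tri_gad hVs.2.2.2.1).trans (Nat.add_le_add_right hVs.2.2.2.2 _)
  set TR : Finset (Fin n × Fin n × Fin n) := univ.filter (fun z : Fin n × Fin n × Fin n =>
    (gr Q).Adj z.1 z.2.1 ∧ (gr Q).Adj z.2.1 z.2.2 ∧ (gr Q).Adj z.2.2 z.1) with hTR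
  have hTRc : TR.card = tri Q := rfl
  let F : Cg J l n → (J → Fin n × Fin n × Fin n) := fun c j => ((c j 0).1, (c j 1).1, (c j 2).1)
  have hsub : S.image F ⊆ Fintype.piFinset (fun _ : J => TR) := by
    intro b hb
    obtain ⟨c, hc, rfl⟩ := mem_image.1 hb
    rw [Fintype.mem_piFinset]
    intro j
    have hV := hT c hc
    have hsubQ : gadN c ⊆ Q := hV.1.trans (pre_mono ω (le_trans (hmax c hc) (Nat.le_succ _)))
    rw [hTR, mem_filter]
    exact ⟨mem_univ _, adj_gad hV.2.2.2.1 hsubQ j (by decide),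
      adj_gad hV.2.2.2.1 hsubQ j (by decide), adj_gad hV.2.2.2.1 hsubQ j (by decide)⟩
  have himg : (S.image F).card ≤ (L + 9 * Fintype.card J * (l + 2) ^ 2) ^ Fintype.card J := by
    refine (card_le_card hsub).trans ?_
    rw [Fintype.card_piFinset, prod_const, card_univ, hTRc]
    exact Nat.pow_le_pow_left htri _
  have hfib : ∀ b ∈ S.image F, (S.filter (fun c => F c = b)).card ≤
      (l ^ l) ^ (3 * Fintype.card J) := by
    intro b hb
    obtain ⟨c0, hc0, rfl⟩ := mem_image.1 hb
    let A : J → Fin 3 → Finset (Fin n) := fun j a => univ.image (fun i : Fin l => (c0 j a).2 i)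
    have hA : ∀ j a, (A j a).card ≤ l := by
      intro j a
      refine card_image_le.trans ?_
      rw [card_univ, Fintype.card_fin]
    have hsubf : S.filter (fun c => F c = F c0) ⊆ Fintype.piFinset (fun j : J =>
        Fintype.piFinset (fun a : Fin 3 =>
          ({(c0 j a).1} : Finset (Fin n)) ×ˢ Fintype.piFinset (fun _ : Fin l => A j a))) := by
      intro c hc
      obtain ⟨hcS, hF⟩ := mem_filter.1 hc
      have hv : ∀ j a, (c j a).1 = (c0 j a).1 := by
        intro j a
        have h1 := congrFun hF j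
        have h2 : (c j 0).1 = (c0 j 0).1 ∧ (c j 1).1 = (c0 j 1).1 ∧ (c j 2).1 = (c0 j 2).1 := by
          have h3 := Prod.ext_iff.1 h1
          have h4 := Prod.ext_iff.1 h3.2
          exact ⟨h3.1, h4.1, h4.2⟩
        fin_cases a
        · exact h2.1
        · exact h2.2.1
        · exact h2.2.2
      have hatt : ∀ j a, univ.image (fun i : Fin l => (c j a).2 i) = A j a := by
        intro j a
        rcases le_total (T c) (T c0) with h1 | h1
        · exact att_aux (hT c hcS) (hT c0 hc0) hv h1 j a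
        · exact (att_aux (hT c0 hc0) (hT c hcS) (fun j a => (hv j a).symm) h1 j a).symm
      rw [Fintype.mem_piFinset]
      intro j
      rw [Fintype.mem_piFinset]
      intro a
      rw [mem_product, mem_singleton, Fintype.mem_piFinset]
      refine ⟨hv j a, fun i => ?_⟩
      rw [← hatt j a]
      exact mem_image.2 ⟨i, mem_univ _, rfl⟩
    refine (card_le_card hsubf).trans ?_
    rw [Fintype.card_piFinset]
    have h1 : ∀ j : J, (Fintype.piFinset (fun a : Fin 3 =>
        ({(c0 j a).1} : Finset (Fin n)) ×ˢ Fintype.piFinset (fun _ : Fin l => A j a))).card ≤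
        (l ^ l) ^ 3 := by
      intro j
      rw [Fintype.card_piFinset]
      calc ∏ a : Fin 3, (({(c0 j a).1} : Finset (Fin n)) ×ˢ
            Fintype.piFinset (fun _ : Fin l => A j a)).card ≤ ∏ _a : Fin 3, l ^ l := by
            refine prod_le_prod' fun a _ => ?_
            rw [card_product, card_singleton, one_mul, Fintype.card_piFinset, prod_const,
              card_univ, Fintype.card_fin]
            exact Nat.pow_le_pow_left (hA j a) _
        _ = (l ^ l) ^ 3 := by rw [prod_const, card_univ, Fintype.card_fin]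
    calc ∏ j : J, _ ≤ ∏ _j : J, (l ^ l) ^ 3 := prod_le_prod' fun j _ => h1 j
      _ = (l ^ l) ^ (3 * Fintype.card J) := by
        rw [prod_const, card_univ, ← pow_mul]
  calc S.card ≤ (l ^ l) ^ (3 * Fintype.card J) * (S.image F).card :=
        card_le_mul_card_image S _ hfib
    _ ≤ (l ^ l) ^ (3 * Fintype.card J) *
        (L + 9 * Fintype.card J * (l + 2) ^ 2) ^ Fintype.card J := Nat.mul_le_mul_left _ himg
    _ = DD J l L := by
        unfold DD
        rw [mul_comm]

end Pool.Agent.Work.MP_73831e_pr.F
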