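import Pool.Agent.Work.MP_73831e_pr.F.P.Core

/-!
MODULE P/Plant (S-M).  The planting theorem: if the success probability tends to 0, then so does the
probability that the process (up to time `C n`) meets a graph with `Fa` and `Kp`, for every
increasing property `Kp` for which a positive fraction of the gadget configurations kills.

Given `ε > 0` take `L, n₀` from `hty` for `ε / 2`.  For `n` large apply `plant_core` with
`T = C n`, `Td = Ty K₁ K₃ K₄ L` (decreasing: `Sparse.anti`, `DegOK.anti`, `ManyIso.anti`, and `tri` is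
monotone).  If `∃ t ≤ C n, Fa ∧ Kp` holds and `Ty (pre ω (C n))` holds, then `Td (pre ω t)` holds as
well.  Hence the probability is at most
`ε / 2 + Γ K ^ s DD J l L * prob (Suc (l+1) M)`, and the last term tends to 0.
(`C n + s + 1 ≤ NN n` for `n` large, `2 NN n = n (n-1)`.)
-/

open Finset Filter Topology
open scoped Classical Nat

namespace Pool.Agent.Work.MP_73831e_pr.F

theorem Ty.anti {n K₁ K₃ K₄ L : ℕ} {E F : Finset (Pr n)} (h : E ⊆ F) (hF : Ty K₁ K₃ K₄ L F) :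
    Ty K₁ K₃ K₄ L E := by
  have hg := gr_mono h
  refine ⟨hF.sp.anti hg, hF.deg.anti hg, hF.many.anti hg, le_trans ?_ hF.tri⟩
  unfold Pool.Agent.Work.MP_73831e_pr.F.tri
  apply card_le_card
  intro z hz
  simp only [mem_filter, mem_univ, true_and] at hz ⊢
  exact ⟨hg hz.1, hg hz.2.1, hg hz.2.2⟩

private theorem prob_nonneg' {P : Type} [Fintype P] (A : Ordr P → Prop) : 0 ≤ prob A := by
  unfold prob; positivity

private theorem prob_le_add {P : Type} [Fintype P] {A B D : Ordr P → Prop}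
    (h : ∀ ω, A ω → B ω ∨ D ω) : prob A ≤ prob B + prob D := by
  unfold prob
  rw [← add_div]
  gcongr
  have h1 : Nat.card {ω : Ordr P // A ω} ≤ Nat.card {ω : Ordr P // B ω} + Nat.card {ω : Ordr P // D ω} := by
    rw [Nat.card_eq_fintype_card, Nat.card_eq_fintype_card, Nat.card_eq_fintype_card,
      Fintype.card_subtype, Fintype.card_subtype, Fintype.card_subtype]
    refine le_trans (card_le_card ?_) (card_union_le _ _)
    intro ω hω
    simp only [mem_filter, mem_univ, true_and, mem_union] at hω ⊢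
    exact h ω hω
  exact_mod_cast h1

theorem plant {l M C K₁ K₃ K₄ : ℕ} (hM : 3 * l + 4 ≤ M) (hty : Typical (l + 1) C K₁ K₃ K₄)
    (Kp : ∀ n, Finset (Pr n) → Prop) (hKp : ∀ n E F, E ⊆ F → Kp n E → Kp n F)
    (hK : ∃ K n₀ : ℕ, ∀ n ≥ n₀, ∀ E, Kp n E → Alive (l + 1 + 1) (gr E) → n ≤ K * E.card)
    (hkill : ∃ (J : Type) (_ : Fintype J) (Γ n₀ : ℕ), ∀ n ≥ n₀, ∀ E, Kp n E →
      ManyIso K₄ (gr E) → KF J l Γ E)
    (hS : Tendsto (fun n => prob (fun ω : Ordr (Pr n) => Suc (l + 1) M ω)) atTop (𝓝 0)) :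
    Tendsto (fun n => prob (fun ω : Ordr (Pr n) =>
      ∃ t ≤ C * n, Fa (l + 1) M (pre ω t) ∧ Kp n (pre ω t))) atTop (𝓝 0) := by
  obtain ⟨K, nK, hK⟩ := hK
  obtain ⟨J, iJ, Γ, nJ, hkill⟩ := hkill
  obtain ⟨-, -, -, -, hty⟩ := hty
  rw [Metric.tendsto_atTop]
  intro ε hε
  obtain ⟨L, nL, hL⟩ := hty (ε / 2) (by positivity)
  have hS' := hS.const_mul ((Γ * K ^ gs J l * DD J l L : ℕ) : ℝ)
  rw [mul_zero, Metric.tendsto_atTop] at hS'
  obtain ⟨nS, hS'⟩ := hS' (ε / 2) (by positivity)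
  refine ⟨max (max nK nJ) (max (max nL nS) (2 * C + 2 * gs J l + 4)), fun n hn => ?_⟩
  simp only [ge_iff_le, max_le_iff] at hn
  obtain ⟨⟨hnK, hnJ⟩, ⟨hnL, hnS⟩, hn4⟩ := hn
  rw [Real.dist_0_eq_abs, abs_of_nonneg (prob_nonneg' _)]
  have h1 : prob (fun ω : Ordr (Pr n) => ∃ t ≤ C * n, Fa (l + 1) M (pre ω t) ∧ Kp n (pre ω t)) ≤
      prob (fun ω : Ordr (Pr n) => ¬ (Ty K₁ K₃ K₄ L (pre ω (C * n)) ∧
        ∀ x, ¬ Alive (l + 1 + 1) (gr (pre ω (C * n) \ st x)))) +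
      prob (fun ω : Ordr (Pr n) => ∃ t ≤ C * n, Fa (l + 1) M (pre ω t) ∧ Kp n (pre ω t) ∧
        Ty K₁ K₃ K₄ L (pre ω t)) := by
    apply prob_le_add
    rintro ω ⟨t, ht, hF, hKt⟩
    by_cases hT : Ty K₁ K₃ K₄ L (pre ω (C * n))
    · exact Or.inr ⟨t, ht, hF, hKt, hT.anti (pre_mono ω ht)⟩
    · exact Or.inl fun h => hT h.1
  have hN : C * n + gs J l + 1 ≤ NN n := by
    have h2 := two_NN n
    have h3 : n * (2 * C + 2 * gs J l + 3) ≤ n * (n - 1) := Nat.mul_le_mul_left _ (by omega)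
    have h4 : 2 * gs J l + 3 ≤ n * (2 * gs J l + 3) := Nat.le_mul_of_pos_left _ (by omega)
    have h5 : n * (2 * C + 2 * gs J l + 3) = 2 * (C * n) + n * (2 * gs J l + 3) := by ring
    omega
  have h2 := plant_core (J := J) (l := l) (n := n) (M := M) (L := L) (T := C * n) (K := K) (Γ := Γ)
    hM (by omega) (Kp := Kp n) (Td := Ty K₁ K₃ K₄ L) (hKp n) (fun E F hEF hF => hF.anti hEF)
    (fun E hE => hE.tri) (hK n hnK) (fun E h5 h6 => hkill n hnJ E h5 h6.many) hN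
  have h3 : prob (fun ω : Ordr (Pr n) => ∃ t ≤ C * n, Fa (l + 1) M (pre ω t) ∧ Kp n (pre ω t) ∧
        Ty K₁ K₃ K₄ L (pre ω t)) ≤ ((Γ * K ^ gs J l * DD J l L : ℕ) : ℝ) *
        prob (fun ω : Ordr (Pr n) => Suc (l + 1) M ω) := by
    unfold prob
    rw [← mul_div_assoc]
    gcongr
    exact_mod_cast h2
  have h4 := hS' n hnS
  rw [Real.dist_0_eq_abs] at h4
  have h5 := le_abs_self (((Γ * K ^ gs J l * DD J l L : ℕ) : ℝ) *
        prob (fun ω : Ordr (Pr n) => Suc (l + 1) M ω))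
  have h6 := hL n hnL
  linarith

end Pool.Agent.Work.MP_73831e_pr.F
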