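import Pool.Agent.Work.MP_73831e_pr.F.P.Gad

/-!
MODULE P/TriG (S-M).  The number of ordered triangles after adding gadgets.

An ordered triangle `(x, y, z)` of `gr (E ∪ gadN c)` which is not a triangle of `gr E` contains an
edge which is not in `gr E`, so (`gad_new`) one of `x, y, z` is a new vertex `(c j a).1`; the two
others are neighbours of it, and it has degree `l + 2` (`gad_dg`).  So there are at most
`3 * (3 |J|) * (l + 2)^2` such triples (position of the new vertex, the new vertex, two neighbours).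
-/

open Finset
open scoped Classical Nat

namespace Pool.Agent.Work.MP_73831e_pr.F

private theorem card_three {n : ℕ} (N : Finset (Fin n)) (v : Fin n) :
    ((N ×ˢ N).image (fun q : Fin n × Fin n => ((v, q.1, q.2) : Fin n × Fin n × Fin n)) ∪
      (N ×ˢ N).image (fun q : Fin n × Fin n => ((q.1, v, q.2) : Fin n × Fin n × Fin n)) ∪
      (N ×ˢ N).image (fun q : Fin n × Fin n => ((q.1, q.2, v) : Fin n × Fin n × Fin n))).card
      ≤ 3 * N.card ^ 2 := by
  have h1 : ∀ g : Fin n × Fin n → Fin n × Fin n × Fin n, ((N ×ˢ N).image g).card ≤ N.card ^ 2 := by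
    intro g
    refine card_image_le.trans ?_
    rw [card_product, sq]
  refine (card_union_le _ _).trans ?_
  refine (Nat.add_le_add_right (card_union_le _ _) _).trans ?_
  have a1 := h1 (fun q : Fin n × Fin n => ((v, q.1, q.2) : Fin n × Fin n × Fin n))
  have a2 := h1 (fun q : Fin n × Fin n => ((q.1, v, q.2) : Fin n × Fin n × Fin n))
  have a3 := h1 (fun q : Fin n × Fin n => ((q.1, q.2, v) : Fin n × Fin n × Fin n))
  omega

theorem tri_gad {J : Type} [Fintype J] {l n : ℕ} {E : Finset (Pr n)} {c : Cg J l n}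
    (hc : Gd (gr E) c) :
    tri (E ∪ gadN c) ≤ tri E + 9 * Fintype.card J * (l + 2) ^ 2 := by
  have hnb : ∀ (j : J) (a : Fin 3) (y : Fin n), (gr (E ∪ gadN c)).Adj (c j a).1 y →
      y ∈ nb (E ∪ gadN c) (c j a).1 := by
    intro j a y h
    unfold nb
    simpa using h
  have hsub : (univ.filter (fun z : Fin n × Fin n × Fin n =>
      (gr (E ∪ gadN c)).Adj z.1 z.2.1 ∧ (gr (E ∪ gadN c)).Adj z.2.1 z.2.2 ∧
        (gr (E ∪ gadN c)).Adj z.2.2 z.1)) ⊆
      (univ.filter (fun z : Fin n × Fin n × Fin n =>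
        (gr E).Adj z.1 z.2.1 ∧ (gr E).Adj z.2.1 z.2.2 ∧ (gr E).Adj z.2.2 z.1)) ∪
      (univ : Finset (J × Fin 3)).biUnion (fun p =>
        ((nb (E ∪ gadN c) (c p.1 p.2).1 ×ˢ nb (E ∪ gadN c) (c p.1 p.2).1).image
          (fun q : Fin n × Fin n => (((c p.1 p.2).1, q.1, q.2) : Fin n × Fin n × Fin n)) ∪
        (nb (E ∪ gadN c) (c p.1 p.2).1 ×ˢ nb (E ∪ gadN c) (c p.1 p.2).1).image
          (fun q : Fin n × Fin n => ((q.1, (c p.1 p.2).1, q.2) : Fin n × Fin n × Fin n)) ∪
        (nb (E ∪ gadN c) (c p.1 p.2).1 ×ˢ nb (E ∪ gadN c) (c p.1 p.2).1).image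
          (fun q : Fin n × Fin n => ((q.1, q.2, (c p.1 p.2).1) : Fin n × Fin n × Fin n)))) := by
    rintro ⟨x, y, w⟩ hz
    simp only [mem_filter, mem_univ, true_and] at hz
    obtain ⟨h1, h2, h3⟩ := hz
    have hnew : (∃ j a, x = (c j a).1 ∨ y = (c j a).1 ∨ w = (c j a).1) ∨
        ((gr E).Adj x y ∧ (gr E).Adj y w ∧ (gr E).Adj w x) := by
      by_cases e1 : (gr E).Adj x y
      · by_cases e2 : (gr E).Adj y w
        · by_cases e3 : (gr E).Adj w x
          · exact Or.inr ⟨e1, e2, e3⟩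
          · obtain ⟨j, a, h | h⟩ := gad_new h3 e3
            · exact Or.inl ⟨j, a, Or.inr (Or.inr h)⟩
            · exact Or.inl ⟨j, a, Or.inl h⟩
        · obtain ⟨j, a, h | h⟩ := gad_new h2 e2
          · exact Or.inl ⟨j, a, Or.inr (Or.inl h)⟩
          · exact Or.inl ⟨j, a, Or.inr (Or.inr h)⟩
      · obtain ⟨j, a, h | h⟩ := gad_new h1 e1
        · exact Or.inl ⟨j, a, Or.inl h⟩
        · exact Or.inl ⟨j, a, Or.inr (Or.inl h)⟩
    rw [mem_union]
    rcases hnew with ⟨j, a, h⟩ | h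
    · right
      rw [mem_biUnion]
      refine ⟨(j, a), mem_univ _, ?_⟩
      rw [mem_union, mem_union]
      rcases h with h | h | h
      · left; left
        subst h
        exact mem_image.2 ⟨(y, w), mem_product.2 ⟨hnb j a y h1, hnb j a w h3.symm⟩, rfl⟩
      · left; right
        subst h
        exact mem_image.2 ⟨(x, w), mem_product.2 ⟨hnb j a x h1.symm, hnb j a w h2⟩, rfl⟩
      · right
        subst h
        exact mem_image.2 ⟨(x, y), mem_product.2 ⟨hnb j a x h3, hnb j a y h2.symm⟩, rfl⟩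
    · left
      simp only [mem_filter, mem_univ, true_and]
      exact h
  unfold tri
  refine (card_le_card hsub).trans ((card_union_le _ _).trans (Nat.add_le_add_left ?_ _))
  refine card_biUnion_le.trans ?_
  have hb : ∀ p ∈ (univ : Finset (J × Fin 3)),
      ((nb (E ∪ gadN c) (c p.1 p.2).1 ×ˢ nb (E ∪ gadN c) (c p.1 p.2).1).image
          (fun q : Fin n × Fin n => (((c p.1 p.2).1, q.1, q.2) : Fin n × Fin n × Fin n)) ∪
        (nb (E ∪ gadN c) (c p.1 p.2).1 ×ˢ nb (E ∪ gadN c) (c p.1 p.2).1).image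
          (fun q : Fin n × Fin n => ((q.1, (c p.1 p.2).1, q.2) : Fin n × Fin n × Fin n)) ∪
        (nb (E ∪ gadN c) (c p.1 p.2).1 ×ˢ nb (E ∪ gadN c) (c p.1 p.2).1).image
          (fun q : Fin n × Fin n => ((q.1, q.2, (c p.1 p.2).1) : Fin n × Fin n × Fin n))).card
        ≤ 3 * (l + 2) ^ 2 := by
    intro p _
    refine (card_three (nb (E ∪ gadN c) (c p.1 p.2).1) (c p.1 p.2).1).trans ?_
    have h1 : (nb (E ∪ gadN c) (c p.1 p.2).1).card = l + 2 := gad_dg hc p.1 p.2
    rw [h1]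
  refine (sum_le_card_nsmul _ _ _ hb).trans ?_
  rw [card_univ, Fintype.card_prod, Fintype.card_fin, smul_eq_mul]
  apply le_of_eq
  ring

end Pool.Agent.Work.MP_73831e_pr.F
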